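import Pool.Agent.Helper78.W3.StD

/-!
# Project W3 (MP_3c9520_nt): module HK7, row 1 of the operator `T_7` on the plane
-/

set_option autoImplicit false

namespace Pool.Agent.Helper47.W3

open Pool.Agent.Helper78.W3 Pool.Agent.Helper14.W3
open Pool.Agent.Helper14.CV (Homog EqC act Tl)

/-- The potential at the standard matrix. -/
private noncomputable def pot {q q' : ℕ} (G : ℤ → ℤ → ZMod 3) (u1 u2 : ℤ) (x : ZMod q) (y : ZMod q') :
    ZMod 3 :=
  G (u1 + 3 ^ 1 * (x.val : ℤ) * u2) (3 * rY3 1 x y * u1 + (1 + 3 ^ (1 + 1) * (x.val : ℤ) * rY3 1 x y) * u2)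

private theorem edge_pot {q q' : ℕ} (G : ℤ → ℤ → ZMod 3) (u1 u2 v1 v2 : ℤ) (x : ZMod q) (y : ZMod q') :
    edge3 1 u1 u2 v1 v2 G x y = pot G u1 u2 x y - pot G v1 v2 x y := rfl

private theorem pot_hom {q q' : ℕ} {G : ℤ → ℤ → ZMod 3} (hG : Homog G) (x : ZMod q)
    (y : ZMod q') (k u1 u2 : ℤ) (hk : k ≠ 0) (hu : u1 ≠ 0 ∨ u2 ≠ 0) :
    pot G (k * u1) (k * u2) x y = pot G u1 u2 x y := by
  unfold pot
  have h := hG k (u1 + 3 ^ 1 * (x.val : ℤ) * u2)
    (3 * rY3 1 x y * u1 + (1 + 3 ^ (1 + 1) * (x.val : ℤ) * rY3 1 x y) * u2) hk (by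
      by_contra hc
      push Not at hc
      obtain ⟨h1, h2⟩ := hc
      have hu2 : u2 = 0 := by
        linear_combination h2 - 3 * rY3 1 x y * h1
      have hu1 : u1 = 0 := by
        rw [hu2] at h1
        linear_combination h1
      rcases hu with h | h
      · exact h hu1
      · exact h hu2)
  rw [← h]
  congr 1 <;> ring

/-- The potential at the standard matrix of the translated point. -/
private noncomputable def pM {q q' : ℕ} (G : ℤ → ℤ → ZMod 3) (A B C D u1 u2 : ℤ) (x : ZMod q)
    (y : ZMod q') : ZMod 3 := tr A B C D (pot G u1 u2) x y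

private theorem edge_pM {q q' : ℕ} (G : ℤ → ℤ → ZMod 3) (A B C D u1 u2 v1 v2 : ℤ) (x : ZMod q)
    (y : ZMod q') : tr A B C D (edge3 1 u1 u2 v1 v2 G) x y =
      pM G A B C D u1 u2 x y - pM G A B C D v1 v2 x y := rfl

private theorem pM_hom {q q' : ℕ} {G : ℤ → ℤ → ZMod 3} (hG : Homog G) (A B C D : ℤ) (x : ZMod q)
    (y : ZMod q') (k u1 u2 : ℤ) (hk : k ≠ 0) (hu : u1 ≠ 0 ∨ u2 ≠ 0) :
    pM G A B C D (k * u1) (k * u2) x y = pM G A B C D u1 u2 x y :=
  pot_hom hG _ _ k u1 u2 hk hu

private theorem key (hTre : S3Tre) (hTrm : S3Trm) {r s : ℕ} {G : ℤ → ℤ → ZMod 3}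
    (hG : Sym3 (r + 1) (s + 1) G) (x : ZMod (3 ^ r)) (y : ZMod (3 ^ s)) (f : Fin 3)
    (A B C D a b c d σ N1 N2 N3 N4 k p1 p2 l w1 w2 : ℤ)
    (hdet : a * d - 9 * b * c = 1) (hnA : ¬ (3 : ℤ) ∣ A) (hnD : ¬ (3 : ℤ) ∣ D)
    (hna : ¬ (3 : ℤ) ∣ a) (hnd : ¬ (3 : ℤ) ∣ d) (hnσ : ¬ (3 : ℤ) ∣ σ)
    (hn1 : ¬ (3 : ℤ) ∣ N1) (hn4 : ¬ (3 : ℤ) ∣ N4)
    (e1 : A * a + 9 * B * c = σ * N1) (e2 : A * b + B * d = σ * N2)
    (e3' : C * a + D * c = σ * N3) (e4 : 9 * C * b + D * d = σ * N4)
    (hk : k ≠ 0) (hp : p1 ≠ 0 ∨ p2 ≠ 0) (k1 : a = k * p1) (k2 : 3 * c = k * p2)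
    (hl : l ≠ 0) (hw : w1 ≠ 0 ∨ w2 ≠ 0) (l1 : a * e3 f + 3 * b = l * w1)
    (l2 : 3 * c * e3 f + d = l * w2) :
    tr N1 N2 N3 N4 (pf G f) x y = pM G A B C D p1 p2 x y - pM G A B C D w1 w2 x y := by
  have h := hTrm (ZMod 3) r s (pf G f)
  rw [← h.2.2 σ N1 N2 N3 N4 hnσ hn1 hn4, ← e1, ← e2, ← e3', ← e4,
    ← h.1 A B C D a b c d hnA hnD hna hnd]
  obtain ⟨x', hx'⟩ : ∃ x' : ZMod (3 ^ r), x' = ((B : ZMod (3 ^ r)) + D * x) *
    ((A : ZMod (3 ^ r)) + 9 * C * x)⁻¹ := ⟨_, rfl⟩
  obtain ⟨y', hy'⟩ : ∃ y' : ZMod (3 ^ s), y' = ((C : ZMod (3 ^ s)) + A * y) *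
    ((D : ZMod (3 ^ s)) + 9 * B * y)⁻¹ := ⟨_, rfl⟩
  have h1 : tr A B C D (tr a b c d (pf G f)) x y = tr a b c d (pf G f) x' y' := by
    rw [hx', hy']
    rfl
  have h2 : ∀ u1 u2 : ℤ, pM G A B C D u1 u2 x y = pot G u1 u2 x' y' := by
    intro u1 u2
    rw [hx', hy']
    rfl
  have h3 := hTre (ZMod 3) _ r s G hG a b c d 1 0 (e3 f) 1 hdet (Or.inl one_ne_zero)
    (Or.inr one_ne_zero) x' y'
  have h4 : tr a b c d (pf G f) x' y' = tr a b c d (edge3 1 1 0 (e3 f) 1 G) x' y' := rfl
  rw [h1, h2, h2, h4, ← h3, edge_pot]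
  have g1 : a * 1 + 3 * b * 0 = k * p1 := by rw [← k1]; ring
  have g2 : 3 * c * 1 + d * 0 = k * p2 := by rw [← k2]; ring
  have g3 : a * e3 f + 3 * b * 1 = l * w1 := by rw [← l1]; ring
  have g4 : 3 * c * e3 f + d * 1 = l * w2 := by rw [← l2]; ring
  rw [g1, g2, g3, g4, pot_hom hG.1 x' y' k p1 p2 hk hp, pot_hom hG.1 x' y' l w1 w2 hl hw]

theorem hHk7_1 (hHkF : S3HkF) (hTre : S3Tre) (hTrm : S3Trm) : S3Hk7 1 := by
  intro r s G hG
  funext x y
  have t1 := key hTre hTrm hG x y 1 1 0 0 7 1 2 0 1 1 1 2 0 7 1 1 0 1 7 1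
    (by decide) (by decide) (by decide) (by decide) (by decide) (by decide) (by decide) (by decide)
    (by decide) (by decide) (by decide) (by decide) (by decide) (by decide) (by decide) (by decide)
    (by decide) (by decide) (by decide) (by decide)
  have t2 := key hTre hTrm hG x y 1 7 3 0 1 7 (-5) (-2) 13 1 (-5) 4 (-2) 13 (-1) (-7) 6 1 (-8) 7
    (by decide) (by decide) (by decide) (by decide) (by decide) (by decide) (by decide) (by decide)
    (by decide) (by decide) (by decide) (by decide) (by decide) (by decide) (by decide) (by decide)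
    (by decide) (by decide) (by decide) (by decide)
  have t3 := key hTre hTrm hG x y 2 7 3 0 1 7 2 (-2) (-5) 1 (-5) (-1) (-2) (-5) (-1) (-7) 6 1 (-1) 1
    (by decide) (by decide) (by decide) (by decide) (by decide) (by decide) (by decide) (by decide)
    (by decide) (by decide) (by decide) (by decide) (by decide) (by decide) (by decide) (by decide)
    (by decide) (by decide) (by decide) (by decide)
  have t4 := key hTre hTrm hG x y 2 7 3 0 1 1 0 0 1 1 7 3 0 1 1 1 0 1 (-1) 1
    (by decide) (by decide) (by decide) (by decide) (by decide) (by decide) (by decide) (by decide)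
    (by decide) (by decide) (by decide) (by decide) (by decide) (by decide) (by decide) (by decide)
    (by decide) (by decide) (by decide) (by decide)
  have t5 := key hTre hTrm hG x y 1 7 2 0 1 (-2) (-1) 1 4 1 4 1 1 4 1 (-2) 3 1 (-5) 7
    (by decide) (by decide) (by decide) (by decide) (by decide) (by decide) (by decide) (by decide)
    (by decide) (by decide) (by decide) (by decide) (by decide) (by decide) (by decide) (by decide)
    (by decide) (by decide) (by decide) (by decide)
  have t6 := key hTre hTrm hG x y 2 7 2 0 1 (-2) (-1) 1 4 1 4 1 1 4 1 (-2) 3 1 (-1) 1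
    (by decide) (by decide) (by decide) (by decide) (by decide) (by decide) (by decide) (by decide)
    (by decide) (by decide) (by decide) (by decide) (by decide) (by decide) (by decide) (by decide)
    (by decide) (by decide) (by decide) (by decide)
  have t7 := key hTre hTrm hG x y 2 7 2 0 1 1 0 0 1 1 7 2 0 1 1 1 0 1 (-1) 1
    (by decide) (by decide) (by decide) (by decide) (by decide) (by decide) (by decide) (by decide)
    (by decide) (by decide) (by decide) (by decide) (by decide) (by decide) (by decide) (by decide)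
    (by decide) (by decide) (by decide) (by decide)
  have t8 := key hTre hTrm hG x y 1 7 1 0 1 (-1) 1 1 (-10) (-1) (-2) 3 (-1) 10 1 (-1) 3 (-1) (-2) 7
    (by decide) (by decide) (by decide) (by decide) (by decide) (by decide) (by decide) (by decide)
    (by decide) (by decide) (by decide) (by decide) (by decide) (by decide) (by decide) (by decide)
    (by decide) (by decide) (by decide) (by decide)
  have t9 := key hTre hTrm hG x y 0 7 1 0 1 (-1) 0 1 (-1) (-1) (-2) 1 (-1) 1 1 (-1) 3 (-1) 0 1
    (by decide) (by decide) (by decide) (by decide) (by decide) (by decide) (by decide) (by decide)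
    (by decide) (by decide) (by decide) (by decide) (by decide) (by decide) (by decide) (by decide)
    (by decide) (by decide) (by decide) (by decide)
  have t10 := key hTre hTrm hG x y 0 7 1 0 1 1 0 0 1 1 7 1 0 1 1 1 0 1 0 1
    (by decide) (by decide) (by decide) (by decide) (by decide) (by decide) (by decide) (by decide)
    (by decide) (by decide) (by decide) (by decide) (by decide) (by decide) (by decide) (by decide)
    (by decide) (by decide) (by decide) (by decide)
  have t11 := key hTre hTrm hG x y 0 7 0 0 1 1 0 2 1 1 7 0 2 1 1 1 6 1 0 1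
    (by decide) (by decide) (by decide) (by decide) (by decide) (by decide) (by decide) (by decide)
    (by decide) (by decide) (by decide) (by decide) (by decide) (by decide) (by decide) (by decide)
    (by decide) (by decide) (by decide) (by decide)
  have t12 := key hTre hTrm hG x y 1 7 0 0 1 1 0 2 1 1 7 0 2 1 1 1 6 1 1 7
    (by decide) (by decide) (by decide) (by decide) (by decide) (by decide) (by decide) (by decide)
    (by decide) (by decide) (by decide) (by decide) (by decide) (by decide) (by decide) (by decide)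
    (by decide) (by decide) (by decide) (by decide)
  have t13 := key hTre hTrm hG x y 0 7 0 0 1 1 0 0 1 1 7 0 0 1 1 1 0 1 0 1
    (by decide) (by decide) (by decide) (by decide) (by decide) (by decide) (by decide) (by decide)
    (by decide) (by decide) (by decide) (by decide) (by decide) (by decide) (by decide) (by decide)
    (by decide) (by decide) (by decide) (by decide)
  have t14 := key hTre hTrm hG x y 1 7 (-1) 0 1 5 (-3) 3 (-16) (-1) (-8) 5 (-3) 16 1 5 9 (-1) 4 7
    (by decide) (by decide) (by decide) (by decide) (by decide) (by decide) (by decide) (by decide)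
    (by decide) (by decide) (by decide) (by decide) (by decide) (by decide) (by decide) (by decide)
    (by decide) (by decide) (by decide) (by decide)
  have t15 := key hTre hTrm hG x y 2 7 (-1) 0 1 5 2 3 11 (-1) (-8) (-3) (-3) (-11) 1 5 9 1 1 2
    (by decide) (by decide) (by decide) (by decide) (by decide) (by decide) (by decide) (by decide)
    (by decide) (by decide) (by decide) (by decide) (by decide) (by decide) (by decide) (by decide)
    (by decide) (by decide) (by decide) (by decide)
  have t16 := key hTre hTrm hG x y 0 7 (-1) 0 1 (-1) 0 (-1) (-1) (-1) (-2) (-1) 1 1 (-1) 1 3 (-1) 0 1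
    (by decide) (by decide) (by decide) (by decide) (by decide) (by decide) (by decide) (by decide)
    (by decide) (by decide) (by decide) (by decide) (by decide) (by decide) (by decide) (by decide)
    (by decide) (by decide) (by decide) (by decide)
  have t17 := key hTre hTrm hG x y 2 7 (-1) 0 1 (-1) 0 (-1) (-1) (-1) (-2) (-1) 1 1 (-1) 1 3 1 1 2
    (by decide) (by decide) (by decide) (by decide) (by decide) (by decide) (by decide) (by decide)
    (by decide) (by decide) (by decide) (by decide) (by decide) (by decide) (by decide) (by decide)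
    (by decide) (by decide) (by decide) (by decide)
  have t18 := key hTre hTrm hG x y 0 7 (-1) 0 1 1 0 0 1 1 7 (-1) 0 1 1 1 0 1 0 1
    (by decide) (by decide) (by decide) (by decide) (by decide) (by decide) (by decide) (by decide)
    (by decide) (by decide) (by decide) (by decide) (by decide) (by decide) (by decide) (by decide)
    (by decide) (by decide) (by decide) (by decide)
  have t19 := key hTre hTrm hG x y 1 7 (-2) 0 1 1 0 0 1 1 7 (-2) 0 1 1 1 0 1 1 1
    (by decide) (by decide) (by decide) (by decide) (by decide) (by decide) (by decide) (by decide)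
    (by decide) (by decide) (by decide) (by decide) (by decide) (by decide) (by decide) (by decide)
    (by decide) (by decide) (by decide) (by decide)
  have t20 := key hTre hTrm hG x y 0 7 (-3) 0 1 13 (-1) 3 (-2) 1 10 (-1) 3 (-2) 1 13 9 (-1) 3 2
    (by decide) (by decide) (by decide) (by decide) (by decide) (by decide) (by decide) (by decide)
    (by decide) (by decide) (by decide) (by decide) (by decide) (by decide) (by decide) (by decide)
    (by decide) (by decide) (by decide) (by decide)
  have t21 := key hTre hTrm hG x y 1 7 (-3) 0 1 13 (-1) 3 (-2) 1 10 (-1) 3 (-2) 1 13 9 1 10 7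
    (by decide) (by decide) (by decide) (by decide) (by decide) (by decide) (by decide) (by decide)
    (by decide) (by decide) (by decide) (by decide) (by decide) (by decide) (by decide) (by decide)
    (by decide) (by decide) (by decide) (by decide)
  have t22 := key hTre hTrm hG x y 0 7 (-3) 0 1 4 (-1) 1 (-2) 1 1 (-1) 1 (-2) 1 4 3 (-1) 3 2
    (by decide) (by decide) (by decide) (by decide) (by decide) (by decide) (by decide) (by decide)
    (by decide) (by decide) (by decide) (by decide) (by decide) (by decide) (by decide) (by decide)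
    (by decide) (by decide) (by decide) (by decide)
  have t23 := key hTre hTrm hG x y 1 7 (-3) 0 1 4 (-1) 1 (-2) 1 1 (-1) 1 (-2) 1 4 3 1 1 1
    (by decide) (by decide) (by decide) (by decide) (by decide) (by decide) (by decide) (by decide)
    (by decide) (by decide) (by decide) (by decide) (by decide) (by decide) (by decide) (by decide)
    (by decide) (by decide) (by decide) (by decide)
  have t24 := key hTre hTrm hG x y 1 7 (-3) 0 1 1 0 0 1 1 7 (-3) 0 1 1 1 0 1 1 1
    (by decide) (by decide) (by decide) (by decide) (by decide) (by decide) (by decide) (by decide)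
    (by decide) (by decide) (by decide) (by decide) (by decide) (by decide) (by decide) (by decide)
    (by decide) (by decide) (by decide) (by decide)
  have hJ := hHkF (ZMod 3) _ r s 7 G {-3, -2, -1, 0, 1, 2, 3} (by norm_num) (by norm_num) hG (by decide)
    (by decide) 1 1 (Or.inl one_ne_zero) x y
  have hL : (pf (Tl 7 (3 ^ (r + 1)) G) 1 : Fn3 (3 ^ r) (3 ^ s)) x y =
      edge3 1 1 0 1 1 (Tl 7 (3 ^ (r + 1)) G) x y := rfl
  have h77 : pM G 7 (-2) 0 1 7 7 x y = pM G 7 (-2) 0 1 1 1 x y :=
    pM_hom hG.1 7 (-2) 0 1 x y 7 1 1 (by norm_num) (Or.inl one_ne_zero)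
  have hop : ∀ (a b c d : ℤ) (F : Fn3 (3 ^ r) (3 ^ s)), (op3 a b c d F) x y = tr a b c d F x y :=
    fun _ _ _ _ _ => rfl
  rw [hL, hJ]
  rw [Finset.sum_insert (by decide), Finset.sum_insert (by decide), Finset.sum_insert (by decide),
    Finset.sum_insert (by decide), Finset.sum_insert (by decide), Finset.sum_insert (by decide),
    Finset.sum_singleton]
  norm_num only
  rw [Fin.sum_univ_three]
  simp only [opL, T7L, List.map_cons, List.map_nil, List.sum_cons, List.sum_nil, LinearMap.add_apply,
    LinearMap.smul_apply, LinearMap.zero_apply, Pi.add_apply, Pi.smul_apply, Pi.zero_apply, smul_eq_mul, hop]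
  rw [t1, t2, t3, t4, t5, t6, t7, t8, t9, t10, t11, t12, t13, t14, t15, t16, t17, t18, t19, t20, t21, t22,
    t23, t24]
  simp only [edge_pM, h77]
  push_cast
  ring

end Pool.Agent.Helper47.W3
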