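import Pool.Agent.Helper14.W3.StB

/-!
# Project W3 (MP_3c9520_nt): module Nrm, the normaliser preserves symbols of level `3^n`
-/

set_option autoImplicit false

namespace Pool.Agent.Helper47.W3

open Pool.Agent.Helper14.CV Pool.Agent.Helper14.W3

private theorem three_dvd {a b c d : ℤ} (h : a * d - b * c = 1) (hc : (3 : ℤ) ∣ c) :
    (3 : ℤ) ∣ d - a := by
  have h1 : (3 : ℤ) ∣ a * d - 1 := by
    have e : a * d - 1 = b * c := by linear_combination h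
    rw [e]
    exact hc.mul_left b
  have h2 : (a * d - 1) % 3 = 0 := Int.emod_eq_zero_of_dvd h1
  apply Int.dvd_of_emod_eq_zero
  have ha : a % 3 = 0 ∨ a % 3 = 1 ∨ a % 3 = 2 := by omega
  have hd : d % 3 = 0 ∨ d % 3 = 1 ∨ d % 3 = 2 := by omega
  rcases ha with ha | ha | ha <;> rcases hd with hd | hd | hd <;>
    simp [Int.sub_emod, Int.mul_emod, ha, hd] at h2 ⊢

private theorem nine_dvd {n : ℕ} (hn : 2 ≤ n) {c : ℤ} (hc : (3 : ℤ) ^ n ∣ c) : (9 : ℤ) ∣ c := by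
  have : (3 : ℤ) ^ 2 ∣ c := (pow_dvd_pow 3 hn).trans hc
  norm_num at this
  exact this

private theorem nrm_t {n : ℕ} {G : ℤ → ℤ → ℂ} (hn : 2 ≤ n) (h : Sym3 0 n G) (i : ℤ) :
    Sym3 0 n (act 3 i 0 3 G) := by
  refine h.act (by norm_num) fun a b c d hd _ hc => ?_
  obtain ⟨e, he⟩ := nine_dvd hn hc
  obtain ⟨f, hf⟩ := three_dvd hd ((by norm_num : (3 : ℤ) ∣ 9).trans (nine_dvd hn hc))
  have hd' : d = a + 3 * f := by linear_combination hf
  refine ⟨a + 3 * i * e, b + i * f - i ^ 2 * e, c, d - 3 * i * e, ?_, by simp, hc, ?_, ?_, ?_, ?_⟩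
  · rw [← hd, he, hd']
    ring
  · rw [he]
    ring
  · rw [hd']
    ring
  · ring
  · rw [he]
    ring

private theorem nrm_s {n : ℕ} {G : ℤ → ℤ → ℂ} (hn : 2 ≤ n) (h : Sym3 0 n G) (j : ℤ) :
    Sym3 0 n (act 1 0 (j * 3 ^ (n - 1)) 1 G) := by
  refine h.act (by norm_num) fun a b c d hd _ hc => ?_
  obtain ⟨f, hf⟩ := three_dvd hd ((by norm_num : (3 : ℤ) ∣ 9).trans (nine_dvd hn hc))
  have hd' : d = a + 3 * f := by linear_combination hf
  have hp : (3 : ℤ) ^ n = 3 * 3 ^ (n - 1) := by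
    rw [← pow_succ']
    congr 1
    omega
  have hp2 : (3 : ℤ) ^ n ∣ 3 ^ (n - 1) * 3 ^ (n - 1) := by
    rw [← pow_add]
    exact pow_dvd_pow 3 (by omega)
  refine ⟨a - b * (j * 3 ^ (n - 1)), b,
    c + (j * 3 ^ (n - 1)) * (a - d) - (j * 3 ^ (n - 1)) ^ 2 * b, d + j * 3 ^ (n - 1) * b,
    ?_, by simp, ?_, ?_, ?_, ?_, ?_⟩
  · rw [← hd]
    ring
  · refine dvd_sub (dvd_add hc ?_) ?_
    · refine ⟨-(j * f), ?_⟩
      rw [hd', hp]
      ring
    · have e : (j * 3 ^ (n - 1)) ^ 2 * b = 3 ^ (n - 1) * 3 ^ (n - 1) * (j ^ 2 * b) := by ring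
      rw [e]
      exact hp2.mul_right _
  · ring
  · ring
  · ring
  · ring

theorem hNrm : S3Nrm := by
  intro n G hn h
  refine ⟨?_, nrm_t hn h 1, nrm_t hn h 2, ?_, nrm_s hn h 2, ?_⟩
  · refine h.act (by simp) fun a b c d hd _ hc => ?_
    obtain ⟨e, he⟩ := hc
    refine ⟨d, -e, -(3 ^ n * b), a, ?_, by simp, ⟨-b, by ring⟩, ?_, ?_, ?_, ?_⟩
    · rw [← hd, he]
      ring
    · rw [he]
      ring
    · ring
    · ring
    · ring
  · have := nrm_s hn h 1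
    rwa [one_mul] at this
  · refine h.act (by norm_num) fun a b c d hd _ hc => ?_
    refine ⟨a, -b, -c, d, ?_, by simp, (dvd_neg).2 hc, ?_, ?_, ?_, ?_⟩
    · rw [← hd]
      ring
    · ring
    · ring
    · ring
    · ring

end Pool.Agent.Helper47.W3
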